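import Pool.Agent.H55.PM.SU
import Pool.Agent.H14.PM.PB
import Pool.Agent.H14.PM.PP
import Pool.Agent.H19.PM.N3
import Pool.Agent.H19.PM.TU
import Pool.Agent.H48.PM.MI
import Pool.Agent.H49.PM.MC
import Pool.Agent.H49.PM.N1
import Pool.Agent.H66.PM.FR
import Pool.Agent.H66.PM.LE
import Pool.Agent.H67.PM.GR
import Pool.Agent.H67.PM.PR
import Pool.Agent.H77.PM.SQ
import Pool.Agent.H86.PM.N4
import Pool.Agent.H94.PM.N2

set_option autoImplicit false

open Filter Pool.Agent.H55.PM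

namespace Pool.Agent.Results.MP_9198c9_nt.Characterization

/-- Let `A` be an infinite set of positive integers. If some infinite set `M` of positive integers
makes `p_{A,M}` eventually positive and of polynomial growth, then `gcd A = 1`, `A(x)/log x` is
almost decreasing and tends to zero. If `A(x) = O(log x / log log x)`, such an `M` exists if and
only if `gcd A = 1` and `A(x)/log x` is almost decreasing. -/
theorem result :
    (∀ A M : Set ℕ, A.Infinite → (∀ a ∈ A, 0 < a) → M.Infinite → (∀ m ∈ M, 0 < m) → Good A M →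
      (∀ d : ℕ, (∀ a ∈ A, d ∣ a) → d = 1) ∧ AD A ∧
        Tendsto (fun x : ℕ => (cnt A x : ℝ) / Real.log x) atTop (nhds 0)) ∧
    (∀ A : Set ℕ, A.Infinite → (∀ a ∈ A, 0 < a) →
      (∃ (C : ℝ) (x₀ : ℕ), ∀ x ≥ x₀,
        (cnt A x : ℝ) * Real.log (Real.log x) ≤ C * Real.log x) →
      ((∃ M : Set ℕ, M.Infinite ∧ (∀ m ∈ M, 0 < m) ∧ Good A M) ↔
        (∀ d : ℕ, (∀ a ∈ A, d ∣ a) → d = 1) ∧ AD A)) := by
  have hN1 : T_N1 := Pool.Agent.H49.PM.N1.pf_n1 Pool.Agent.H19.PMTU.main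
  have hN2 : T_N2 := Pool.Agent.H94.PM.pf_n2 hN1 Pool.Agent.H66.PM.LE.pf_le
  have hN3 : T_N3 := Pool.Agent.H19.PMN3.main hN1
  have hN4 : T_N4 := Pool.Agent.H86.PM.pf_n4
  have hSU : T_SU := su Pool.Agent.H14.PM.pb Pool.Agent.H66.PM.FR.pf_fr Pool.Agent.H77.PM.pf_sq
    Pool.Agent.H48.MI.mi Pool.Agent.H49.PM.MC.pf_mc
    (Pool.Agent.H67.PM.pf_pr Pool.Agent.H14.PM.pp Pool.Agent.H67.PM.pf_gr)
  refine ⟨fun A M _ _ hM hMpos hG => ⟨hN4 A M hG, hN2 A M hG, hN3 A M hM hMpos hG⟩, ?_⟩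
  intro A hA hpos hgr
  constructor
  · rintro ⟨M, hM, hMpos, hG⟩
    exact ⟨hN4 A M hG, hN2 A M hG⟩
  · rintro ⟨hgcd, hAD⟩
    exact hSU A hA hpos hgcd hAD hgr

end Pool.Agent.Results.MP_9198c9_nt.Characterization
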