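import Pool.Agent.H25.PG.GB
import Pool.Agent.H65.PG.RB
import Pool.Agent.H75.PG.CV
import Pool.Agent.H78.PG.SC
import Pool.Agent.H78.PG.U
import Pool.Agent.H14.PG.D1
import Pool.Agent.H32.PG.D2
import Pool.Agent.H32.PG.D3
import Pool.Agent.H94.PG.D4
import Pool.Agent.H58.PG.DE
import Pool.Agent.H61.PG.DL
import Pool.Agent.H58.PG.PB
import Pool.Agent.H19.PG.GQ
import Pool.Agent.H36.PG.TI

set_option autoImplicit false

open Filter Pool.Agent.H55.PM Pool.Agent.H25.PG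

namespace Pool.Agent.Results.MP_9198c9_nt.GrowthOrders

theorem pU : T_U := Pool.Agent.H78.PG.pf_U Pool.Agent.H65.PG.pf_RB Pool.Agent.H14.PG.pf_D1
  (Pool.Agent.H32.PG.pf_D2 Pool.Agent.H14.PG.pf_D1 Pool.Agent.H32.PG.pf_D3)
  Pool.Agent.H32.PG.pf_D3 Pool.Agent.H94.PG.pf_D4

theorem pCV : T_CV := Pool.Agent.H75.PG.pf_CV Pool.Agent.H65.PG.pf_RB

theorem pSC : T_SC := Pool.Agent.H78.PG.pf_SC Pool.Agent.H65.PG.pf_RB

/-- (1) The partition function of every nonempty finite set `B` of positive integers is `p_{A,M}`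
for some infinite `A`, `M`. (2) For all real `0 ≤ β ≤ α` there are infinite `A`, `M` with
`p_{A,M} ≥ 1` everywhere such that the lower and the upper limit of `log p_{A,M}(n) / log n` are
`β` and `α`. -/
theorem result :
    (∀ B : Finset ℕ, B.Nonempty → (∀ b ∈ B, 0 < b) →
      ∃ A M : Set ℕ, A.Infinite ∧ M.Infinite ∧ (∀ a ∈ A, 0 < a) ∧ (∀ m ∈ M, 0 < m) ∧
        ∀ n, pc A M n = pc (B : Set ℕ) (Set.Ioi 0) n) ∧
    (∀ β α : ℝ, 0 ≤ β → β ≤ α → ∃ A M : Set ℕ,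
      A.Infinite ∧ M.Infinite ∧ (∀ a ∈ A, 0 < a) ∧ (∀ m ∈ M, 0 < m) ∧ (∀ n : ℕ, 1 ≤ pc A M n) ∧
      ∀ ε : ℝ, 0 < ε →
        (∀ᶠ n : ℕ in atTop, (n : ℝ) ^ (β - ε) ≤ pc A M n ∧ (pc A M n : ℝ) ≤ (n : ℝ) ^ (α + ε)) ∧
        (∃ᶠ n : ℕ in atTop, (pc A M n : ℝ) ≤ (n : ℝ) ^ (β + ε)) ∧
        (∃ᶠ n : ℕ in atTop, (n : ℝ) ^ (α - ε) ≤ pc A M n)) :=
  ⟨fun B hB hpos => Pool.Agent.H25.PG.GB.main
      (Pool.Agent.H58.PG.pf_PB pCV pSC pU) Pool.Agent.H36.PG.pf_TI B hB hpos,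
    Pool.Agent.H19.PG.pf_FI
      (Pool.Agent.H61.PG.pf_DL (Pool.Agent.H58.PG.pf_DE Pool.Agent.H36.PG.pf_TI))
      (Pool.Agent.H19.PG.pf_GQ Pool.Agent.H65.PG.pf_RB pCV pSC pU)
      Pool.Agent.H36.PG.pf_YC Pool.Agent.H36.PG.pf_TI⟩

end Pool.Agent.Results.MP_9198c9_nt.GrowthOrders
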