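import Pool.Agent.H55.PM.Targets
import Pool.Agent.H19.PM.GP
import Pool.Agent.H19.PM.TU
import Pool.Agent.H49.PM.CC
import Pool.Agent.H49.PM.N1
import Pool.Agent.H51.PM.SL
import Pool.Agent.H85.PM.NG
import Pool.Agent.H55.PM.CT

set_option autoImplicit false

open Filter Pool.Agent.H55.PM

namespace Pool.Agent.Results.MP_9198c9_nt.OptimalRange

/-- For every `h → ∞` there is an infinite set `A ∋ 1` of positive integers with
`A(x) ≤ h(x) log x / log log x` for large `x`, `A(x)/log x` almost decreasing and tending to zero,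
such that for no infinite set `M` of positive integers `p_{A,M}` is eventually positive and of
polynomial growth. -/
theorem result : ∀ h : ℕ → ℝ, Tendsto h atTop atTop →
    ∃ A : Set ℕ, A.Infinite ∧ (∀ a ∈ A, 0 < a) ∧ 1 ∈ A ∧ AD A ∧
      Tendsto (fun x : ℕ => (cnt A x : ℝ) / Real.log x) atTop (nhds 0) ∧
      (∃ x₀ : ℕ, ∀ x ≥ x₀, (cnt A x : ℝ) * Real.log (Real.log x) ≤ h x * Real.log x) ∧
      ∀ M : Set ℕ, M.Infinite → (∀ m ∈ M, 0 < m) → ¬ Good A M :=
  CTm.ct Pool.Agent.H49.PM.CC.pf_cc Pool.Agent.H51.PM.t_SL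
    (Pool.Agent.H85.PM.pf_NG Pool.Agent.H19.PMGP.main
      (Pool.Agent.H49.PM.N1.pf_n1 Pool.Agent.H19.PMTU.main))

end Pool.Agent.Results.MP_9198c9_nt.OptimalRange
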