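import Pool.Agent.H25.PG.WU
import Pool.Agent.H65.PG.RB
import Pool.Agent.H78.PG.U
import Pool.Agent.H14.PG.D1
import Pool.Agent.H32.PG.D2
import Pool.Agent.H32.PG.D3
import Pool.Agent.H94.PG.D4
import Pool.Agent.H14.PM.PP
import Pool.Agent.H19.PM.TD
import Pool.Agent.H49.PM.DV
import Pool.Agent.H85.PM.IN
import Pool.Agent.H94.PM.TL

set_option autoImplicit false

open Filter Pool.Agent.H55.PM Pool.Agent.H25.PG

namespace Pool.Agent.Results.MP_9198c9_nt.UniqueSystems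

/-- (1) All sets `A`, `M` of positive integers for which every `n` has exactly one partition with
parts in `A` and multiplicities in `M`. (2) For every `h → ∞` there are such infinite sets with
`A(x) ≥ log x / h(x)` for all large `x`. -/
theorem result :
    (∀ A M : Set ℕ, (∀ a ∈ A, 0 < a) → (∀ m ∈ M, 0 < m) →
      ((∀ n, pc A M n = 1) ↔
        ∃ g, 2 ≤ g ∧ ∃ E F : Set ℕ, Tile E F ∧ A = PA g E ∧ M = PM g F)) ∧
    (∀ h : ℕ → ℝ, Tendsto h atTop atTop →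
      ∃ A M : Set ℕ, A.Infinite ∧ M.Infinite ∧ (∀ a ∈ A, 0 < a) ∧ (∀ m ∈ M, 0 < m) ∧
        (∀ n, pc A M n = 1) ∧ ∃ x₀ : ℕ, ∀ x ≥ x₀, Real.log x ≤ h x * cnt A x) :=
  ⟨fun A M hA hM => Pool.Agent.H25.PG.WU.main Pool.Agent.H65.PG.pf_RB Pool.Agent.H14.PG.pf_D1
      (Pool.Agent.H32.PG.pf_D2 Pool.Agent.H14.PG.pf_D1 Pool.Agent.H32.PG.pf_D3)
      Pool.Agent.H32.PG.pf_D3 Pool.Agent.H94.PG.pf_D4
      (Pool.Agent.H78.PG.pf_U Pool.Agent.H65.PG.pf_RB Pool.Agent.H14.PG.pf_D1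
        (Pool.Agent.H32.PG.pf_D2 Pool.Agent.H14.PG.pf_D1 Pool.Agent.H32.PG.pf_D3)
        Pool.Agent.H32.PG.pf_D3 Pool.Agent.H94.PG.pf_D4) A M hA hM,
    Pool.Agent.H19.PMTD.main (Pool.Agent.H94.PM.pf_tl Pool.Agent.H14.PM.pp) Pool.Agent.H85.PM.pf_IN
      Pool.Agent.H49.PM.DV.pf_dv⟩

end Pool.Agent.Results.MP_9198c9_nt.UniqueSystems
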